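import Pool.Agent.N356.SP.DefsK
import Pool.Agent.N521.LS.SplitOK
import Pool.Agent.N558.LS.LS5
import Pool.Agent.N615.LS.Small
import Pool.Agent.N608.LS.L12b

set_option autoImplicit false

/-! GK15: splitting at a prime, general `k` -/

namespace Pool.Agent.N603.LK

open Finset Pool.Agent.H384R3.SPk Pool.Agent.N356.SP

theorem Nb_pos {κ X : ℝ} (_hκ0 : 0 ≤ κ) (hκ1 : κ ≤ 1 / 6) (hX : 0 ≤ X) : 0 < Nb κ X := by
  have h1 : 0 ≤ 2 - 7 * κ / 4 := by linarith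
  have h2 : 0 ≤ 1 - 7 * κ / 4 := by linarith
  have h3 : 0 ≤ 4 - 7 * κ / 2 := by linarith
  have h4 : 0 ≤ 2 - 7 * κ / 8 := by linarith
  unfold Nb
  positivity

theorem cK_nonneg {k : ℕ} (hk : 6 ≤ k) : 0 < cK k := by
  have h1 : (6 : ℝ) ≤ k := by exact_mod_cast hk
  have h2 : 0 < ((2 * k).choose k : ℝ) := by
    exact_mod_cast Nat.choose_pos (by omega)
  have h3 : 0 < 2 * (2 * (k : ℝ) - 1) := by linarith
  unfold cK
  positivity

theorem BK_arg {k : ℕ} (hk : 6 ≤ k) (t : ℝ) : 0 < Nb (1 / k) (k * cK k * t ^ 2) := by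
  have h1 : (6 : ℝ) ≤ k := by exact_mod_cast hk
  have h2 := cK_nonneg hk
  refine Nb_pos (by positivity) ?_ (by positivity)
  apply one_div_le_one_div_of_le (by norm_num) h1

theorem BK_pow {k : ℕ} (hk : 6 ≤ k) (t : ℝ) :
    BK k t ^ (2 * k) = Nb (1 / k) (k * cK k * t ^ 2) := by
  have h1 : (6 : ℝ) ≤ k := by exact_mod_cast hk
  have h2 : 2 * (k : ℝ) ≠ 0 := by positivity
  unfold BK
  rw [← Real.rpow_natCast, ← Real.rpow_mul (BK_arg hk t).le]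
  push_cast
  rw [one_div_mul_cancel h2, Real.rpow_one]

theorem tK_sq {k : ℕ} (hk : 6 ≤ k) {t : ℝ} (ht0 : 0 ≤ t) (ht1 : t ≤ tK k) :
    k * cK k * t ^ 2 ≤ 17 / 10 := by
  have h1 : (6 : ℝ) ≤ k := by exact_mod_cast hk
  have h2 := cK_nonneg hk
  have h3 : 0 < 10 * k * cK k := by positivity
  have h4 : t ^ 2 ≤ 17 / (10 * k * cK k) := by
    have h5 : t ^ 2 ≤ tK k ^ 2 := pow_le_pow_left₀ ht0 ht1 2
    unfold tK at h5
    rwa [Real.sq_sqrt (by positivity)] at h5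
  rw [le_div_iff₀ h3] at h4
  linarith

/-- GK15: splitting at a prime -/
theorem splitK
    (two_blockK : ∀ {m : ℕ} {C : Finset (ZMod m)} {θ : ZMod m → ZMod m → ℝ} {g f : ℤ →₀ ℝ}
      {k : ℕ} (_hk : 6 ≤ k) (_h : GoodC C θ) (_ho : OrdC k C) (_hg0 : ∀ n, 0 ≤ g n)
      (_hf0 : ∀ n, 0 ≤ f n) (_hg : ∀ n ∈ g.support, ((n : ℤ) : ZMod m) = 0)
      (_hf : ∀ n ∈ f.support, ((n : ℤ) : ZMod m) ∈ C) (_hG : Mc k g ≤ ((2 * k).choose k : ℝ))
      (_hF : Mc k f ≤ ((2 * k).choose k : ℝ)) {t : ℝ} (_ht : 0 ≤ t)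
      (_ht1 : k * cK k * t ^ 2 ≤ 17 / 10),
      Mc k (g + t • f) ≤ ((2 * k).choose k : ℝ) * Nb (1 / k) (k * cK k * t ^ 2))
    {k : ℕ} (hk : 6 ≤ k) : SplitK k (BK k) (tK k) := by
  classical
  intro p j A A₀ A' hM hS t ht0 ht1
  obtain ⟨hp, hpos, hA₀, -, -, hun, hv0, hv1⟩ := hS
  have hsub0 : A₀ ⊆ A := hun ▸ subset_union_left
  have hsub1 : A' ⊆ A := hun ▸ subset_union_right
  have ht2 := tK_sq hk ht0 ht1
  refine Pool.Agent.N608.LS.S_comb (by omega) hpos hsub0 hsub1 ht0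
    (Real.rpow_pos_of_pos (BK_arg hk t) _) ?_
  intro g f hg0 hf0 hgs hfs hG hF
  rw [BK_pow hk]
  have hne : ∀ b ∈ A₀, b ≠ 0 := fun b hb => (hpos b (hsub0 hb)).ne'
  by_cases hpk : 2 * k < p
  · -- large primes
    have hg : ∀ n ∈ g.support, ((n : ℤ) : ZMod (p ^ (j + 1))) = 0 := fun n hn =>
      Pool.Agent.N521.LS.zero_of_val hp (hv1 n (hgs hn)) rfl
    obtain ⟨C, hC⟩ : ∃ C : Finset (ZMod (p ^ (j + 1))), C =
      A₀.image (fun b => ((b : ℤ) : ZMod (p ^ (j + 1)))) ∪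
      A₀.image (fun b => -((b : ℤ) : ZMod (p ^ (j + 1)))) := ⟨_, rfl⟩
    have hmem : ∀ s, s ∈ C ↔ ∃ b ∈ A₀, s = ((b : ℤ) : ZMod (p ^ (j + 1))) ∨
        s = -((b : ℤ) : ZMod (p ^ (j + 1))) := by
      intro s
      rw [hC, mem_union, mem_image, mem_image]
      constructor
      · rintro (⟨b, hb, rfl⟩ | ⟨b, hb, rfl⟩)
        · exact ⟨b, hb, Or.inl rfl⟩
        · exact ⟨b, hb, Or.inr rfl⟩
      · rintro ⟨b, hb, rfl | rfl⟩
        · exact Or.inl ⟨b, hb, rfl⟩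
        · exact Or.inr ⟨b, hb, rfl⟩
    have hf : ∀ n ∈ f.support, ((n : ℤ) : ZMod (p ^ (j + 1))) ∈ C := fun n hn =>
      (hmem _).2 ⟨n, hfs hn, Or.inl rfl⟩
    have hneg : ∀ s ∈ C, -s ∈ C := by
      intro s hs
      obtain ⟨b, hb, rfl | rfl⟩ := (hmem s).1 hs
      · exact (hmem _).2 ⟨b, hb, Or.inr rfl⟩
      · exact (hmem _).2 ⟨b, hb, Or.inl (neg_neg _)⟩
    have ho : OrdC k C := by
      intro s hs i hi0 hik
      have hi : ¬ p ^ 1 ∣ i := by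
        intro h
        have := Nat.le_of_dvd hi0 h
        rw [pow_one] at this
        omega
      obtain ⟨b, hb, rfl | rfl⟩ := (hmem s).1 hs
      · exact Pool.Agent.N521.LS.nz hp (hne b hb) (hv0 b hb) hi
      · rw [smul_neg, Ne, neg_eq_zero]
        exact Pool.Agent.N521.LS.nz hp (hne b hb) (hv0 b hb) hi
    have h8 : ∀ s ∈ C, ∀ i : ℕ, 0 < i → i ≤ 8 → i • s ≠ 0 := fun s hs i hi0 hi8 =>
      ho s hs i hi0 (by omega)
    have h2 : ∀ x : ZMod (p ^ (j + 1)), x = -x → x = 0 := by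
      intro x hx
      rcases (ZMod.neg_eq_self_iff x).1 hx.symm with h | h
      · exact h
      · exfalso
        have hodd : Odd (p ^ (j + 1)) := (hp.odd_of_ne_two (by omega)).pow
        rw [← h] at hodd
        exact (Nat.not_odd_iff_even.2 (even_two_mul _)) hodd
    exact two_blockK hk (Pool.Agent.N558.LS.good_th hneg h8 h2) ho hg0 hf0 hg hf hG hF ht0 ht2
  · -- small primes
    obtain ⟨b₀, hb₀⟩ := hA₀
    have hM' := hM p hp (by omega)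
    have hg : ∀ n ∈ g.support, ((n : ℤ) : ZMod (p ^ (j + 2 * k))) = 0 := fun n hn => by
      have h1 := (hM' n (hsub1 (hgs hn)) b₀ (hsub0 hb₀)).1
      have h3 := hv1 n (hgs hn)
      rw [hv0 b₀ hb₀] at h1
      refine Pool.Agent.N521.LS.zero_of_val hp ?_ rfl
      have h4 : 2 * k ∣ padicValInt p n - j := (Nat.modEq_iff_dvd' h3.le).1 h1.symm
      have h5 := Nat.le_of_dvd (by omega) h4
      omega
    have hcl : ∀ b ∈ A₀, ((b : ℤ) : ZMod (p ^ (j + 2 * k))) =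
        ((b₀ : ℤ) : ZMod (p ^ (j + 2 * k))) := by
      intro b hb
      have h1 := (hM' b (hsub0 hb) b₀ (hsub0 hb₀)).2
      rw [hv0 b hb, hv0 b₀ hb₀] at h1
      have hd : ∀ a ∈ A₀, (p : ℤ) ^ j * (a / (p : ℤ) ^ j) = a := by
        intro a ha
        have : Fact p.Prime := ⟨hp⟩
        refine Int.mul_ediv_cancel' ?_
        have := padicValInt_dvd (p := p) a
        rwa [hv0 a ha] at this
      have h3 : (p : ℤ) ^ (2 * k) ∣ b₀ / (p : ℤ) ^ j - b / (p : ℤ) ^ j := h1.dvd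
      have h4 : (p : ℤ) ^ (j + 2 * k) ∣ b₀ - b := by
        obtain ⟨c, hc⟩ := h3
        refine ⟨c, ?_⟩
        calc b₀ - b = (p : ℤ) ^ j * (b₀ / (p : ℤ) ^ j) - (p : ℤ) ^ j * (b / (p : ℤ) ^ j) := by
              rw [hd b₀ hb₀, hd b hb]
          _ = (p : ℤ) ^ j * (b₀ / (p : ℤ) ^ j - b / (p : ℤ) ^ j) := by ring
          _ = _ := by rw [hc]; ring
      rw [ZMod.intCast_eq_intCast_iff_dvd_sub]
      push_cast
      exact h4
    have hf : ∀ n ∈ f.support, ((n : ℤ) : ZMod (p ^ (j + 2 * k))) ∈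
        ({((b₀ : ℤ) : ZMod (p ^ (j + 2 * k))), -((b₀ : ℤ) : ZMod (p ^ (j + 2 * k)))} :
          Finset (ZMod (p ^ (j + 2 * k)))) := fun n hn => by
      rw [hcl n (hfs hn)]
      exact mem_insert_self _ _
    have ho' : ∀ i : ℕ, 0 < i → i ≤ 2 * k → i • ((b₀ : ℤ) : ZMod (p ^ (j + 2 * k))) ≠ 0 := by
      intro i hi0 hik
      refine Pool.Agent.N521.LS.nz hp (hne b₀ hb₀) (hv0 b₀ hb₀) ?_
      intro h
      have h5 := Nat.le_of_dvd hi0 h
      have h6 : 2 * k < p ^ (2 * k) := Nat.lt_pow_self hp.one_lt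
      omega
    have h8 : ∀ i : ℕ, 0 < i → i ≤ 8 → i • ((b₀ : ℤ) : ZMod (p ^ (j + 2 * k))) ≠ 0 :=
      fun i hi0 hi8 => ho' i hi0 (by omega)
    have ho : OrdC k ({((b₀ : ℤ) : ZMod (p ^ (j + 2 * k))),
        -((b₀ : ℤ) : ZMod (p ^ (j + 2 * k)))} : Finset (ZMod (p ^ (j + 2 * k)))) := by
      intro s hs i hi0 hik
      rw [mem_insert, mem_singleton] at hs
      rcases hs with rfl | rfl
      · exact ho' i hi0 hik
      · rw [smul_neg, Ne, neg_eq_zero]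
        exact ho' i hi0 hik
    exact two_blockK hk (Pool.Agent.N615.LS.good_small h8) ho hg0 hf0 hg hf hG hF ht0 ht2

end Pool.Agent.N603.LK
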